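import Mathlib

/-!
# Domination numbers of covers: no linear lower bound

For every `M` there are a graph `F` with `γ(F) ≥ M + 1` and a `k`-fold cover `G` of `F`, with
`k = (4M+1)^M`, such that `γ(G) ≤ 2k`. Hence there is no constant `c > 0` with
`γ(G) ≥ c k γ(F)` for all `k`-fold covers.
-/

set_option autoImplicit false

namespace Pool.Agent.Results.MP_afd993_co.TorusCovers

/-- `S` is a dominating set of `G`: every vertex outside `S` has a neighbour in `S`. -/
def IsDominating {V : Type*} (G : SimpleGraph V) (S : Finset V) : Prop :=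
  ∀ v, v ∉ S → ∃ w ∈ S, G.Adj v w

/-- The domination number: the least size of a dominating set. -/
noncomputable def domNum {V : Type*} (G : SimpleGraph V) : ℕ :=
  sInf {m | ∃ S : Finset V, IsDominating G S ∧ S.card = m}

/-- `G` is a `k`-fold cover of `F` via `π`: the map `π` is onto, it maps the neighbourhood of each
vertex `v` bijectively onto the neighbourhood of `π v`, and all fibres have `k` elements. -/
def IsCover {V W : Type*} (G : SimpleGraph V) (F : SimpleGraph W) (π : V → W) (k : ℕ) : Prop :=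
  Function.Surjective π ∧ (∀ v, Set.BijOn π (G.neighborSet v) (F.neighborSet (π v))) ∧
    ∀ w, Nat.card {v // π v = w} = k

variable (M n : ℕ)

/-- The shifts: nonzero integer vectors with all entries of absolute value at most `n`. -/
def Shift (t : Fin M → ℤ) : Prop := t ≠ 0 ∧ ∀ i, |t i| ≤ n

lemma shift_neg {t : Fin M → ℤ} (h : Shift M n t) : Shift M n (-t) :=
  ⟨neg_ne_zero.2 h.1, fun i => by rw [Pi.neg_apply, abs_neg]; exact h.2 i⟩

/-- Two bounded integers congruent modulo `2n+3` are equal. -/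
lemma eq_of_cast {s t : ℤ} (hs : |s| ≤ n) (ht : |t| ≤ n)
    (h : (s : ZMod (2 * n + 3)) = (t : ZMod (2 * n + 3))) : s = t := by
  rw [ZMod.intCast_eq_intCast_iff_dvd_sub] at h
  rw [abs_le] at hs ht
  have h1 := Int.eq_zero_of_abs_lt_dvd h (by
    rw [abs_lt]; push_cast; constructor <;> omega)
  omega

lemma eq_of_cast_fun {s t : Fin M → ℤ} (hs : ∀ i, |s i| ≤ n) (ht : ∀ i, |t i| ≤ n)
    (h : ∀ i, (s i : ZMod (2 * n + 3)) = (t i : ZMod (2 * n + 3))) : s = t :=
  funext fun i => eq_of_cast n (hs i) (ht i) (h i)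

/-- The base graph on `(ZMod (2n+3))^M`. -/
def F : SimpleGraph (Fin M → ZMod (2 * n + 3)) where
  Adj x y := ∃ t, Shift M n t ∧ ∀ i, y i = x i + (t i : ZMod (2 * n + 3))
  symm := ⟨by
    rintro x y ⟨t, ht, h⟩
    refine ⟨-t, shift_neg M n ht, fun i => ?_⟩
    rw [h i, Pi.neg_apply]; push_cast; ring⟩
  loopless := ⟨by
    rintro x ⟨t, ht, h⟩
    apply ht.1
    apply eq_of_cast_fun M n ht.2 (fun i => by simp)
    intro i
    have := h i
    simpa using this⟩

/-- The covering graph on `(ZMod (2n+3))^M × (ZMod (2n+1))^M`. -/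
def G : SimpleGraph ((Fin M → ZMod (2 * n + 3)) × (Fin M → ZMod (2 * n + 1))) where
  Adj x y := ∃ t, Shift M n t ∧ (∀ i, y.1 i = x.1 i + (t i : ZMod (2 * n + 3))) ∧
    ∀ i, y.2 i = x.2 i + (t i : ZMod (2 * n + 1))
  symm := ⟨by
    rintro x y ⟨t, ht, h1, h2⟩
    refine ⟨-t, shift_neg M n ht, fun i => ?_, fun i => ?_⟩
    · rw [h1 i, Pi.neg_apply]; push_cast; ring
    · rw [h2 i, Pi.neg_apply]; push_cast; ring⟩
  loopless := ⟨by
    rintro x ⟨t, ht, h, _⟩
    apply ht.1
    apply eq_of_cast_fun M n ht.2 (fun i => by simp)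
    intro i
    have := h i
    simpa using this⟩

lemma cover : IsCover (G M n) (F M n) Prod.fst ((2 * n + 1) ^ M) := by
  refine ⟨Prod.fst_surjective, ?_, ?_⟩
  · rintro ⟨x, b⟩
    refine ⟨?_, ?_, ?_⟩
    · rintro ⟨y, c⟩ ⟨t, ht, h1, _⟩
      exact ⟨t, ht, h1⟩
    · rintro ⟨y, c⟩ ⟨t, ht, h1, h2⟩ ⟨y', c'⟩ ⟨t', ht', h1', h2'⟩ h
      simp only at h h1 h2 h1' h2'
      subst h
      have : t = t' := by
        apply eq_of_cast_fun M n ht.2 ht'.2
        intro i
        have := (h1 i).symm.trans (h1' i)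
        exact add_left_cancel this
      subst this
      have hc : c = c' := funext fun i => (h2 i).trans (h2' i).symm
      rw [hc]
    · rintro y ⟨t, ht, h1⟩
      exact ⟨(y, fun i => b i + (t i : ZMod (2 * n + 1))), ⟨t, ht, h1, fun i => rfl⟩, rfl⟩
  · intro w
    have e : {v : (Fin M → ZMod (2 * n + 3)) × (Fin M → ZMod (2 * n + 1)) // v.1 = w} ≃
        (Fin M → ZMod (2 * n + 1)) :=
      { toFun := fun v => v.1.2
        invFun := fun b => ⟨(w, b), rfl⟩
        left_inv := by rintro ⟨⟨x, b⟩, rfl⟩; rfl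
        right_inv := fun b => rfl }
    rw [Nat.card_congr e, Nat.card_fun]
    simp

/-- The domination number of the base graph is larger than `M`. -/
lemma domNum_F : M + 1 ≤ domNum (F M n) := by
  classical
  unfold domNum
  have hne : {m | ∃ S, IsDominating (F M n) S ∧ S.card = m}.Nonempty :=
    ⟨_, Finset.univ, fun v hv => absurd (Finset.mem_univ v) hv, rfl⟩
  obtain ⟨D, hD, hc⟩ := Nat.sInf_mem hne
  rw [← hc]
  by_contra hlt
  push Not at hlt
  have hDM : D.card ≤ M := by omega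
  let x : Fin M → ZMod (2 * n + 3) := fun j =>
    if h : j.val < D.card then (D.equivFin.symm ⟨j.val, h⟩).1 j + ((n + 1 : ℕ) : ZMod (2 * n + 3))
    else 0
  have key : ∀ d ∈ D, ∀ t : Fin M → ℤ, (∀ i, |t i| ≤ n) →
      ¬ ∀ i, x i = d i + (t i : ZMod (2 * n + 3)) := by
    intro d hd t ht h
    have hj1 : (D.equivFin ⟨d, hd⟩).val < D.card := (D.equivFin ⟨d, hd⟩).2
    have hj2 : (D.equivFin ⟨d, hd⟩).val < M := by omega
    have h1 := h ⟨_, hj2⟩
    have h2 : x ⟨_, hj2⟩ = d ⟨_, hj2⟩ + ((n + 1 : ℕ) : ZMod (2 * n + 3)) := by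
      simp only [x, hj1, dif_pos]
      congr 1
      simp
    rw [h2] at h1
    have h3 := add_left_cancel h1
    have h4 : (((n + 1 : ℕ) : ℤ) : ZMod (2 * n + 3)) =
        ((t ⟨_, hj2⟩ : ℤ) : ZMod (2 * n + 3)) := by
      rw [← h3]; push_cast; rfl
    rw [ZMod.intCast_eq_intCast_iff_dvd_sub] at h4
    have h5 := ht ⟨_, hj2⟩
    rw [abs_le] at h5
    have h6 := Int.eq_zero_of_abs_lt_dvd h4 (by
      rw [abs_lt]; push_cast; constructor <;> omega)
    push_cast at h6
    omega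
  by_cases hx : x ∈ D
  · exact key x hx 0 (fun i => by simp) (fun i => by simp)
  · obtain ⟨d, hd, hadj⟩ := hD x hx
    obtain ⟨t, ht, h⟩ := hadj.symm
    exact key d hd t ht.2 h

/-- The domination number of the cover is at most the order of the base graph. -/
lemma domNum_G : domNum (G M n) ≤ (2 * n + 3) ^ M := by
  classical
  have hcard : ((Finset.univ : Finset (Fin M → ZMod (2 * n + 3))) ×ˢ
      ({0} : Finset (Fin M → ZMod (2 * n + 1)))).card = (2 * n + 3) ^ M := by
    rw [Finset.card_product, Finset.card_singleton, mul_one, Finset.card_univ, Fintype.card_fun,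
      ZMod.card, Fintype.card_fin]
  refine Nat.sInf_le ⟨_, ?_, hcard⟩
  rintro ⟨y, b⟩ hyb
  have hb : b ≠ 0 := by
    rintro rfl
    exact hyb (by simp)
  let t : Fin M → ℤ := fun i => (b i).valMinAbs
  have ht : ∀ i, ((t i : ℤ) : ZMod (2 * n + 1)) = b i := fun i => ZMod.coe_valMinAbs _
  refine ⟨(fun i => y i - (t i : ZMod (2 * n + 3)), 0), by simp, ?_⟩
  apply SimpleGraph.Adj.symm
  refine ⟨t, ⟨?_, ?_⟩, ?_, ?_⟩
  · intro h
    apply hb
    funext i
    rw [← ht i, h]
    simp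
  · intro i
    have := ZMod.natAbs_valMinAbs_le (b i)
    have h2 : (b i).valMinAbs.natAbs ≤ n := by omega
    show |(b i).valMinAbs| ≤ n
    rw [Int.abs_eq_natAbs]
    exact_mod_cast h2
  · intro i; simp
  · intro i
    show b i = 0 + _
    rw [ht i, zero_add]

lemma pow_le : (4 * M + 3) ^ M ≤ 2 * (4 * M + 1) ^ M := by
  have h1 : (1 : ℝ) + (M : ℝ) * (-(2 / (4 * M + 3))) ≤ (1 + (-(2 / (4 * (M : ℝ) + 3)))) ^ M := by
    apply one_add_mul_le_pow
    have : (0 : ℝ) < 4 * M + 3 := by positivity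
    rw [neg_le_neg_iff, div_le_iff₀ this]
    have : (0 : ℝ) ≤ M := Nat.cast_nonneg M
    linarith
  have hpos : (0 : ℝ) < 4 * M + 3 := by positivity
  have h2 : (1 + (-(2 / (4 * (M : ℝ) + 3)))) = (4 * M + 1) / (4 * M + 3) := by
    field_simp; ring
  have h3 : (1 / 2 : ℝ) ≤ (1 : ℝ) + (M : ℝ) * (-(2 / (4 * M + 3))) := by
    have h4 : (M : ℝ) * (2 / (4 * M + 3)) ≤ 1 / 2 := by
      rw [← mul_div_assoc, div_le_div_iff₀ hpos (by norm_num)]
      linarith
    linarith
  rw [h2, div_pow] at h1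
  have h5 := h3.trans h1
  have h6 : (0 : ℝ) < (4 * (M : ℝ) + 3) ^ M := by positivity
  rw [div_le_div_iff₀ (by norm_num) h6] at h5
  have h7 : ((4 * M + 3 : ℕ) : ℝ) ^ M ≤ 2 * ((4 * M + 1 : ℕ) : ℝ) ^ M := by
    push_cast; linarith
  exact_mod_cast h7

/-- For every `M` there are a finite graph `F` with domination number at least `M + 1` and a
`k`-fold cover `G` of `F`, `k = (4M+1)^M`, with domination number at most `2k`; consequently, for
every `c > 0` there are such `F`, `G`, `k` with `γ(G) < c k γ(F)`. -/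
theorem result :
    (∀ M : ℕ, ∃ (V W : Type) (_ : Fintype V) (_ : Fintype W) (G : SimpleGraph V)
      (F : SimpleGraph W) (π : V → W), IsCover G F π ((4 * M + 1) ^ M) ∧
      M + 1 ≤ domNum F ∧ domNum G ≤ 2 * (4 * M + 1) ^ M) ∧
    (∀ c : ℝ, 0 < c → ∃ (k : ℕ) (V W : Type) (_ : Fintype V) (_ : Fintype W)
      (G : SimpleGraph V) (F : SimpleGraph W) (π : V → W), 1 ≤ k ∧ IsCover G F π k ∧
      (domNum G : ℝ) < c * k * domNum F) := by
  have main : ∀ M : ℕ, ∃ (V W : Type) (_ : Fintype V) (_ : Fintype W) (G : SimpleGraph V)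
      (F : SimpleGraph W) (π : V → W), IsCover G F π ((4 * M + 1) ^ M) ∧
      M + 1 ≤ domNum F ∧ domNum G ≤ 2 * (4 * M + 1) ^ M := by
    intro M
    have h1 := cover M (2 * M)
    have h2 := domNum_F M (2 * M)
    have h3 := domNum_G M (2 * M)
    have h4 := pow_le M
    have e1 : 2 * (2 * M) + 1 = 4 * M + 1 := by ring
    have e2 : 2 * (2 * M) + 3 = 4 * M + 3 := by ring
    refine ⟨_, _, inferInstance, inferInstance, G M (2 * M), F M (2 * M), Prod.fst, ?_, h2, ?_⟩
    · rw [← e1]; exact h1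
    · refine h3.trans ?_
      rw [e2]; exact h4
  refine ⟨main, ?_⟩
  intro c hc
  obtain ⟨M, hM⟩ := exists_nat_gt (2 / c)
  obtain ⟨V, W, hV, hW, G, F, π, h1, h2, h3⟩ := main M
  refine ⟨(4 * M + 1) ^ M, V, W, hV, hW, G, F, π, Nat.one_le_pow _ _ (by omega), h1, ?_⟩
  have hk : (0 : ℝ) < (((4 * M + 1) ^ M : ℕ) : ℝ) := by positivity
  have h3' : (domNum G : ℝ) ≤ 2 * (((4 * M + 1) ^ M : ℕ) : ℝ) := by exact_mod_cast h3
  have h2' : (M : ℝ) + 1 ≤ (domNum F : ℝ) := by exact_mod_cast h2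
  have h4 : 2 < c * (domNum F : ℝ) := by
    have h5 : 2 < c * M := by
      rw [div_lt_iff₀ hc] at hM
      linarith
    nlinarith
  calc (domNum G : ℝ) ≤ 2 * (((4 * M + 1) ^ M : ℕ) : ℝ) := h3'
    _ < (c * (domNum F : ℝ)) * (((4 * M + 1) ^ M : ℕ) : ℝ) := by
        exact mul_lt_mul_of_pos_right h4 hk
    _ = c * (((4 * M + 1) ^ M : ℕ) : ℝ) * domNum F := by ring

end Pool.Agent.Results.MP_afd993_co.TorusCovers
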